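import Pool.Agent.J4H65.CP.Prob

/-!
# Complete sets for `BPP`, `RP` and `ZPP` after a sparse addition to an arbitrary oracle

Definitions (in `Pool/Agent/J4H65/CP/PDefs.lean` for `cnt`, `IsBPP`, `IsRP`, `IsZPP`, `HasComplete`,
`Pool/Agent/J4H65/CP/Defs.lean` for `Few`, `Pool/Agent/J4H63/ESY/Defs.lean` for `join`, and
`Pool/Agent/H620R2/Gauge/Defs.lean` for `Oracle`, `Alg`, `IsFP` and `str`):

* an `Oracle` is a set of bit strings; `join X S` is the disjoint union of `X` and `S`; `Few f S`: for
  every `N`, at most `f N` of the first `N` strings (in the order of length) are in `S`;
* `IsFP X F`: the function `F` on bit strings is computable in polynomial time relative to `X` (by an
  algorithm `Alg`, whose next action, as a function of the input and of the answers so far, is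
  computed in polynomial time by a Turing machine of Mathlib);
* `cnt V m x`: the number of the strings `r` of length `m` such that `V` accepts the pair of `r` and `x`;
* `IsBPP X L`, `IsRP X L`: there are `V` with `IsFP X V` and a polynomial `p` such that the probability
  that `V` accepts the pair of a random string of length `p |x|` and `x` is more than `2 / 3` for
  `x ∈ L` and less than `1 / 3` for `x ∉ L` (`BPP`), or more than `1 / 2` and zero (`RP`);
* `IsZPP X L`: `L` and its complement are in `RP` relative to `X`;
* `HasComplete K X`: some set in the class `K` is complete for the class for polynomial-time many-one
  reductions relative to `X`.

Theorem. Let `f` tend to infinity, no matter how slowly. For every oracle `X` there is `S` with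
`Few f S` such that all three classes have complete sets relative to `join X S`.

There are oracles `X` relative to which there are no complete sets (Sipser; Hartmanis and
Hemachandra). By the theorem a sparse addition changes this, for every `X`. The addition is so sparse
that it cannot repair more than few bits of other properties of `X`; so there is no proof, valid
relative to all oracles, that classes like these have no complete sets, from any assumption about the
oracle which is preserved by sparse additions (for instance that the classes are much larger than
`P`).

Idea. Let `A` be the oracle `join X S` (in another coding). A `p`-optimal proof system `P` for the set of
the lists `z = (program, program, input length, number of random bits, clock)` such that the programs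
keep the promise of the class at all inputs of this length yields a complete set (as in the work of
Köbler, Messner and Torán): the instances are pairs `(u, x)`, and the programs are those in `P u`. The
membership of `z` depends only on the part of the oracle up to the clock. A universal proof system
simulates the program number `q` with a clock up to `n`, where `n = 2 ^ (2 ^ (s j))`, if `S` carries a
mark for the activation of `q` and none for its deactivation at the scales up to `n`. The activation is
at a late scale, which depends on `f`; the deactivation is at the first scale at which the program
outputs something which is not in the set. So there are at most two strings in `S` for each program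
and each of the three classes.
-/

set_option autoImplicit false

namespace Pool.Agent.Results.MP_a8d575_lc.SparseAdditions

open Filter Pool.Agent.J4H65.CP

open Pool.Agent.H620R2.Gauge (Oracle)

open Pool.Agent.J4H63.ESY (join)

/-- **Every oracle has complete sets for `BPP`, `RP` and `ZPP` after the addition of a suitable set,
whose number of elements grows arbitrarily slowly.** -/
theorem result (X : Oracle) (f : ℕ → ℕ) (hf : Tendsto f atTop atTop) :
    ∃ S : Oracle, Few f S ∧ HasComplete (IsBPP (join X S)) (join X S) ∧
      HasComplete (IsRP (join X S)) (join X S) ∧ HasComplete (IsZPP (join X S)) (join X S) :=
  prob X f hf

end Pool.Agent.Results.MP_a8d575_lc.SparseAdditions
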